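import Pool.Agent.Lib.MP_ec05cf_co.SizedNum93

/-!
# The degree criterion
-/

namespace Pool.Agent.Lib.MP_ec05cf_co

variable {V C : Type*} [DecidableEq V]

theorem others_eq {E : Finset (Finset V)} {e : Finset V} (he : e ∈ E) {u : V} (hu : u ∈ e) :
    (E.filter fun f => f ≠ e ∧ u ∈ f ∧ e.card ≤ f.card).card =
      (E.filter fun f => e.card ≤ f.card ∧ u ∈ f).card - 1 := by
  have h1 : (E.filter fun f => f ≠ e ∧ u ∈ f ∧ e.card ≤ f.card) =
      (E.filter fun f => e.card ≤ f.card ∧ u ∈ f).erase e := by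
    ext f
    simp only [Finset.mem_filter, Finset.mem_erase]
    tauto
  rw [h1, Finset.card_erase_of_mem (Finset.mem_filter.2 ⟨he, le_refl _, hu⟩)]

theorem deg_two_eq {E : Finset (Finset V)} (u : V) :
    (E.filter fun f => 2 ≤ f.card ∧ u ∈ f).card =
      dg (E.filter fun e => e.card = 2) u + dg (E.filter fun e => 3 ≤ e.card) u := by
  unfold dg
  rw [Finset.filter_filter, Finset.filter_filter, ← Finset.card_union_of_disjoint]
  · congr 1
    ext f
    simp only [Finset.mem_filter, Finset.mem_union]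
    constructor
    · rintro ⟨h1, h2, h3⟩
      by_cases h : f.card = 2
      · exact Or.inl ⟨h1, h, h3⟩
      · exact Or.inr ⟨h1, by omega, h3⟩
    · rintro (⟨h1, h2, h3⟩ | ⟨h1, h2, h3⟩)
      · exact ⟨h1, by omega, h3⟩
      · exact ⟨h1, by omega, h3⟩
  · rw [Finset.disjoint_left]
    intro f hf hf'
    have h1 := (Finset.mem_filter.1 hf).2.1
    have h2 := (Finset.mem_filter.1 hf').2.1
    omega

/-- The criterion for finite lists. -/
theorem crit [Nonempty C] (E : Finset (Finset V)) (hE : Linear E) {n : ℕ}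
    (h3 : ∀ e ∈ E, 3 ≤ e.card →
      ∑ v ∈ e, ((E.filter fun f => e.card ≤ f.card ∧ v ∈ f).card - 1) < n)
    (h2 : ((∃ A : Finset V, ∀ e ∈ E, e.card = 2 → (e ∩ A).card = 1) ∧
        ∀ e ∈ E, e.card = 2 → ∀ u ∈ e, ∀ v ∈ e, u ≠ v →
          (E.filter fun f => 2 ≤ f.card ∧ u ∈ f).card +
            (E.filter fun f => 3 ≤ f.card ∧ v ∈ f).card ≤ n) ∨
      (∀ e ∈ E, e.card = 2 → ∀ u ∈ e, ∀ v ∈ e, u ≠ v →
          (E.filter fun f => 2 ≤ f.card ∧ u ∈ f).card +
            (E.filter fun f => 3 ≤ f.card ∧ v ∈ f).card +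
            (E.filter fun f => f.card = 2 ∧ v ∈ f).card / 2 ≤ n))
    (L : Finset V → Finset C) (hL : ∀ e ∈ E, n ≤ (L e).card) : Good Meet E L := by
  have hT : ∀ v, dg (E.filter fun e => e.card = 2) v =
      (E.filter fun f => f.card = 2 ∧ v ∈ f).card := by
    intro v; unfold dg; rw [Finset.filter_filter]
  have hB : ∀ v, dg (E.filter fun e => 3 ≤ e.card) v =
      (E.filter fun f => 3 ≤ f.card ∧ v ∈ f).card := by
    intro v; unfold dg; rw [Finset.filter_filter]
  apply sized E hE L
  · intro e he he3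
    have h4 : ∑ u ∈ e, (E.filter fun f => f ≠ e ∧ u ∈ f ∧ e.card ≤ f.card).card =
        ∑ v ∈ e, ((E.filter fun f => e.card ≤ f.card ∧ v ∈ f).card - 1) :=
      Finset.sum_congr rfl (fun u hu => others_eq he hu)
    rw [h4]
    exact lt_of_lt_of_le (h3 e he he3) (hL e he)
  · intro L' hL'
    rcases h2 with ⟨⟨A, hA⟩, h2⟩ | h2
    · apply bip _ (fun e he => (Finset.mem_filter.1 he).2) A
        (fun e he => hA e (Finset.mem_filter.1 he).1 (Finset.mem_filter.1 he).2)
      intro e he u hu
      have he1 := (Finset.mem_filter.1 he).1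
      have he2 := (Finset.mem_filter.1 he).2
      obtain ⟨v, hv, huv⟩ := Finset.exists_mem_ne (by omega : 1 < e.card) u
      have h4 := hL' e he1 he2 u hu v hv huv.symm
      have h5 := hL e he1
      have h6 := h2 e he1 he2 u hu v hv huv.symm
      have h7 := deg_two_eq (E := E) u
      have h8 := hB v
      omega
    · apply bkw _ (fun e he => (Finset.mem_filter.1 he).2)
      intro e he u hu v hv huv
      have he1 := (Finset.mem_filter.1 he).1
      have he2 := (Finset.mem_filter.1 he).2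
      have h4 := hL' e he1 he2 u hu v hv huv
      have h5 := hL e he1
      have h6 := h2 e he1 he2 u hu v hv huv
      have h7 := deg_two_eq (E := E) u
      have h8 := hB v
      have h9 := hT v
      rw [h9]
      omega

end Pool.Agent.Lib.MP_ec05cf_co
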