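import Mathlib

/-!
# Ranks at the ends of the edges of a bipartite multigraph (Borodin, Kostochka, Woodall)

There are positions `r e < d (x e)`, `s e < d (y e)`, injective at every vertex, with
`r e + s e + 1 ≤ max (d (x e)) (d (y e))`.
-/

namespace Pool.Agent.Lib.MP_ec05cf_co

open Classical in
/-- number of elements of `S` over `b` -/
noncomputable def deg {α β : Type*} (f : α → β) (S : Finset α) (b : β) : ℕ :=
  (S.filter fun e => f e = b).card

section rank

variable {α β γ : Type*}

theorem deg_le_card (f : α → β) (S : Finset α) (b : β) : deg f S b ≤ S.card := by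
  classical
  exact Finset.card_filter_le _ _

theorem deg_pos {f : α → β} {S : Finset α} {e : α} (he : e ∈ S) : 1 ≤ deg f S (f e) := by
  classical
  exact Finset.card_pos.2 ⟨e, by simp [he]⟩

theorem deg_mono (f : α → β) {S T : Finset α} (h : S ⊆ T) (b : β) : deg f S b ≤ deg f T b := by
  classical
  exact Finset.card_le_card (Finset.filter_subset_filter _ h)

/-- removing a matching which covers `b` -/
theorem deg_sdiff_of_mem {f : α → β} {S M : Finset α} (hM : M ⊆ S)
    (hinj : ∀ e ∈ M, ∀ e' ∈ M, f e = f e' → e = e') {m : α} (hm : m ∈ M) [DecidableEq α] :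
    deg f (S \ M) (f m) + 1 = deg f S (f m) := by
  classical
  have h1 : (S.filter fun e => f e = f m) = insert m ((S \ M).filter fun e => f e = f m) := by
    ext e
    simp only [Finset.mem_filter, Finset.mem_insert, Finset.mem_sdiff]
    constructor
    · rintro ⟨he, hfe⟩
      by_cases heM : e ∈ M
      · exact Or.inl (hinj e heM m hm hfe)
      · exact Or.inr ⟨⟨he, heM⟩, hfe⟩
    · rintro (rfl | ⟨⟨he, -⟩, hfe⟩)
      · exact ⟨hM hm, rfl⟩
      · exact ⟨he, hfe⟩
  unfold deg
  rw [h1, Finset.card_insert_of_notMem (by simp [hm])]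

/-- layer cake: the sum over `t` of the number of points of degree at least `t` -/
theorem sum_layers (f : α → β) (S : Finset α) [DecidableEq β] :
    ∑ t ∈ Finset.Icc 1 S.card, ((S.image f).filter fun b => t ≤ deg f S b).card = S.card := by
  classical
  have h1 : ∀ b, ((Finset.Icc 1 S.card).filter fun t => t ≤ deg f S b).card = deg f S b := by
    intro b
    have : ((Finset.Icc 1 S.card).filter fun t => t ≤ deg f S b) = Finset.Icc 1 (deg f S b) := by
      ext t
      simp only [Finset.mem_filter, Finset.mem_Icc]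
      have := deg_le_card f S b
      omega
    rw [this, Nat.card_Icc]; omega
  simp_rw [Finset.card_filter]
  rw [Finset.sum_comm]
  simp_rw [← Finset.card_filter, h1]
  unfold deg
  convert (Finset.card_eq_sum_card_image f S).symm

/-- neighbours of `b` of degree at least that of `b` -/
noncomputable def nge (x : α → β) (y : α → γ) (S : Finset α) (b : γ) : Finset β := by
  classical
  exact (S.filter fun e => y e = b ∧ deg y S b ≤ deg x S (x e)).image x

theorem mem_nge {x : α → β} {y : α → γ} {S : Finset α} {b : γ} {a : β} :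
    a ∈ nge x y S b ↔ ∃ e ∈ S, y e = b ∧ deg y S b ≤ deg x S (x e) ∧ x e = a := by
  classical
  simp only [nge, Finset.mem_image, Finset.mem_filter]
  constructor
  · rintro ⟨e, ⟨h1, h2, h3⟩, h4⟩; exact ⟨e, h1, h2, h3, h4⟩
  · rintro ⟨e, h1, h2, h3, h4⟩; exact ⟨e, ⟨h1, h2, h3⟩, h4⟩

/-- some nonempty set of `y`-points has at most as many `nge` neighbours -/
theorem exists_tight (x : α → β) (y : α → γ) (S : Finset α) (hS : S.Nonempty) [DecidableEq β]
    [DecidableEq γ] : ∃ Y ⊆ S.image y, Y.Nonempty ∧ (Y.biUnion (nge x y S)).card ≤ Y.card := by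
  classical
  set T := (Finset.Icc 1 S.card).filter fun t =>
    ((S.image y).filter fun b => t ≤ deg y S b).Nonempty with hT
  have hTne : T.Nonempty := by
    obtain ⟨e, he⟩ := hS
    refine ⟨1, ?_⟩
    simp only [hT, Finset.mem_filter, Finset.mem_Icc]
    refine ⟨⟨le_refl _, Finset.card_pos.2 ⟨e, he⟩⟩, y e, ?_⟩
    simp only [Finset.mem_filter]
    exact ⟨Finset.mem_image_of_mem y he, deg_pos he⟩
  have h1 : ∑ t ∈ T, ((S.image x).filter fun a => t ≤ deg x S a).card ≤
      ∑ t ∈ T, ((S.image y).filter fun b => t ≤ deg y S b).card := by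
    calc ∑ t ∈ T, ((S.image x).filter fun a => t ≤ deg x S a).card
        ≤ ∑ t ∈ Finset.Icc 1 S.card, ((S.image x).filter fun a => t ≤ deg x S a).card :=
          Finset.sum_le_sum_of_subset (Finset.filter_subset _ _)
      _ = ∑ t ∈ Finset.Icc 1 S.card, ((S.image y).filter fun b => t ≤ deg y S b).card := by
          rw [sum_layers, sum_layers]
      _ = _ := by
          symm
          apply Finset.sum_subset (Finset.filter_subset _ _)
          intro t ht ht'
          rw [Finset.card_eq_zero, ← Finset.not_nonempty_iff_eq_empty]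
          intro h
          exact ht' (by rw [Finset.mem_filter]; exact ⟨ht, h⟩)
  obtain ⟨t, ht, hle⟩ := Finset.exists_le_of_sum_le hTne h1
  refine ⟨(S.image y).filter fun b => t ≤ deg y S b, Finset.filter_subset _ _,
    (Finset.mem_filter.1 ht).2, le_trans (Finset.card_le_card ?_) hle⟩
  intro a ha
  rw [Finset.mem_biUnion] at ha
  obtain ⟨b, hb, hab⟩ := ha
  rw [mem_nge] at hab
  obtain ⟨e, he, hye, hd, hxe⟩ := hab
  rw [Finset.mem_filter] at hb ⊢
  subst hxe
  exact ⟨Finset.mem_image_of_mem x he, hb.2.trans hd⟩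

/-- the matching to be removed -/
theorem exists_matching (x : α → β) (y : α → γ) (S : Finset α) (hS : S.Nonempty) :
    ∃ M ⊆ S, M.Nonempty ∧ (∀ e ∈ M, ∀ f ∈ M, x e = x f → e = f) ∧
      (∀ e ∈ M, ∀ f ∈ M, y e = y f → e = f) ∧
      ∀ e ∈ M, ∀ f ∈ S, y f = y e → deg y S (y f) ≤ deg x S (x f) → ∃ m ∈ M, x m = x f := by
  classical
  set P : Finset (Finset γ) := (S.image y).powerset.filter fun Y =>
    Y.Nonempty ∧ (Y.biUnion (nge x y S)).card ≤ Y.card with hP
  have hPne : P.Nonempty := by
    obtain ⟨Y, h1, h2, h3⟩ := exists_tight x y S hS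
    exact ⟨Y, by rw [hP, Finset.mem_filter, Finset.mem_powerset]; exact ⟨h1, h2, h3⟩⟩
  obtain ⟨Y, hY, hmin⟩ := Finset.exists_min_image P Finset.card hPne
  rw [hP, Finset.mem_filter, Finset.mem_powerset] at hY
  obtain ⟨hYS, hYne, hYc⟩ := hY
  -- proper nonempty subsets have surplus
  have hsur : ∀ Z ⊆ Y, Z.Nonempty → Z ≠ Y → Z.card < (Z.biUnion (nge x y S)).card := by
    intro Z hZ hZne hne
    by_contra h
    have hZP : Z ∈ P := by
      rw [hP, Finset.mem_filter, Finset.mem_powerset]
      exact ⟨hZ.trans hYS, hZne, not_lt.1 h⟩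
    have h1 := hmin Z hZP
    exact hne (Finset.eq_of_subset_of_card_le hZ h1)
  rcases lt_or_eq_of_le hYc with hlt | heq
  · -- a single vertex without neighbours of larger degree
    obtain ⟨b0, hb0⟩ := hYne
    have hYe : Y = {b0} := by
      by_contra hne
      have h1 : (Y.erase b0).Nonempty := by
        rw [Finset.nonempty_iff_ne_empty]
        intro h
        apply hne
        ext b
        constructor
        · intro hb
          by_contra hbb
          have : b ∈ Y.erase b0 := Finset.mem_erase.2 ⟨by simpa using hbb, hb⟩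
          rw [h] at this
          simp at this
        · intro hb
          rw [Finset.mem_singleton] at hb
          rw [hb]; exact hb0
      have h2 := hsur (Y.erase b0) (Finset.erase_subset _ _) h1 (by
        intro h
        have : b0 ∈ Y.erase b0 := by rw [h]; exact hb0
        simp at this)
      have h3 : ((Y.erase b0).biUnion (nge x y S)).card ≤ (Y.biUnion (nge x y S)).card :=
        Finset.card_le_card (Finset.biUnion_subset_biUnion_of_subset_left _
          (Finset.erase_subset _ _))
      rw [Finset.card_erase_of_mem hb0] at h2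
      omega
    subst hYe
    rw [Finset.card_singleton, Finset.singleton_biUnion] at hlt
    have hempty : nge x y S b0 = ∅ := Finset.card_eq_zero.1 (by omega)
    have hb0S := hYS hb0
    rw [Finset.mem_image] at hb0S
    obtain ⟨e, he, hye⟩ := hb0S
    refine ⟨{e}, by simpa using he, ⟨e, by simp⟩, by simp, by simp, ?_⟩
    intro e' he' f hf hy hd
    rw [Finset.mem_singleton] at he'
    subst he'
    exfalso
    have : x f ∈ nge x y S b0 := mem_nge.2 ⟨f, hf, hy.trans hye, by rw [← hye, ← hy]; exact hd, rfl⟩
    rw [hempty] at this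
    simp at this
  · -- Hall
    have hHall : ∀ s : Finset {b // b ∈ Y}, s.card ≤ (s.biUnion fun b => nge x y S b.1).card := by
      intro s
      have h1 : (s.map (Function.Embedding.subtype _)).biUnion (nge x y S) =
          s.biUnion fun b => nge x y S b.1 := by
        ext a
        simp
      have h2 : (s.map (Function.Embedding.subtype _)) ⊆ Y := by
        intro b hb
        simp only [Finset.mem_map, Function.Embedding.subtype_apply] at hb
        obtain ⟨c, -, rfl⟩ := hb
        exact c.2
      rw [← h1, ← Finset.card_map (Function.Embedding.subtype (fun b => b ∈ Y)) (s := s)]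
      by_cases hse : (s.map (Function.Embedding.subtype _)) = Y
      · rw [hse, heq]
      · by_cases hsn : (s.map (Function.Embedding.subtype (fun b => b ∈ Y))).Nonempty
        · exact (hsur _ h2 hsn hse).le
        · rw [Finset.not_nonempty_iff_eq_empty] at hsn
          rw [hsn]; simp
    obtain ⟨g, hg, hgm⟩ := (Finset.all_card_le_biUnion_card_iff_exists_injective _).1 hHall
    have hch : ∀ b : {b // b ∈ Y}, ∃ e ∈ S, y e = b.1 ∧ x e = g b := by
      intro b
      obtain ⟨e, h1, h2, h3, h4⟩ := mem_nge.1 (hgm b)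
      exact ⟨e, h1, h2, h4⟩
    choose ed hedS hedy hedx using hch
    have himg : (Finset.univ.image g) = Y.biUnion (nge x y S) := by
      apply Finset.eq_of_subset_of_card_le
      · intro a ha
        simp only [Finset.mem_image, Finset.mem_univ, true_and] at ha
        obtain ⟨b, rfl⟩ := ha
        exact Finset.mem_biUnion.2 ⟨b.1, b.2, hgm b⟩
      · rw [Finset.card_image_of_injective _ hg, heq]
        simp
    refine ⟨Finset.univ.image ed, ?_, ?_, ?_, ?_, ?_⟩
    · intro e he
      simp only [Finset.mem_image, Finset.mem_univ, true_and] at he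
      obtain ⟨b, rfl⟩ := he
      exact hedS b
    · obtain ⟨b, hb⟩ := hYne
      exact ⟨ed ⟨b, hb⟩, by simp⟩
    · intro e he f hf hxx
      simp only [Finset.mem_image, Finset.mem_univ, true_and] at he hf
      obtain ⟨b, rfl⟩ := he
      obtain ⟨b', rfl⟩ := hf
      rw [hedx, hedx] at hxx
      rw [hg hxx]
    · intro e he f hf hyy
      simp only [Finset.mem_image, Finset.mem_univ, true_and] at he hf
      obtain ⟨b, rfl⟩ := he
      obtain ⟨b', rfl⟩ := hf
      rw [hedy, hedy] at hyy
      rw [Subtype.ext hyy]
    · intro e he f hf hyy hd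
      simp only [Finset.mem_image, Finset.mem_univ, true_and] at he
      obtain ⟨b, rfl⟩ := he
      rw [hedy] at hyy
      have h1 : x f ∈ Y.biUnion (nge x y S) :=
        Finset.mem_biUnion.2 ⟨b.1, b.2, mem_nge.2 ⟨f, hf, hyy, by rw [← hyy]; exact hd, rfl⟩⟩
      rw [← himg] at h1
      simp only [Finset.mem_image, Finset.mem_univ, true_and] at h1
      obtain ⟨b', hb'⟩ := h1
      exact ⟨ed b', by simp, (hedx b').trans hb'⟩

/-- The rank lemma. -/
theorem exists_ranks (x : α → β) (y : α → γ) (S : Finset α) :
    ∃ r s : α → ℕ, (∀ e ∈ S, r e < deg x S (x e)) ∧ (∀ e ∈ S, s e < deg y S (y e)) ∧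
      (∀ e ∈ S, ∀ f ∈ S, x e = x f → r e = r f → e = f) ∧
      (∀ e ∈ S, ∀ f ∈ S, y e = y f → s e = s f → e = f) ∧
      ∀ e ∈ S, r e + s e + 1 ≤ max (deg x S (x e)) (deg y S (y e)) := by
  classical
  induction hn : S.card using Nat.strong_induction_on generalizing S with
  | _ n ih =>
  rcases S.eq_empty_or_nonempty with rfl | hS
  · exact ⟨fun _ => 0, fun _ => 0, by simp, by simp, by simp, by simp, by simp⟩
  obtain ⟨M, hM, hMne, hMx, hMy, hcov⟩ := exists_matching x y S hS
  have hcard : (S \ M).card < n := by
    rw [← hn]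
    exact Finset.card_lt_card (Finset.sdiff_ssubset hM hMne)
  obtain ⟨r, s, h1, h2, h3, h4, h5⟩ := ih _ hcard (S \ M) rfl
  have hdx : ∀ m ∈ M, deg x (S \ M) (x m) + 1 = deg x S (x m) := fun m hm =>
    deg_sdiff_of_mem hM hMx hm
  have hdy : ∀ m ∈ M, deg y (S \ M) (y m) + 1 = deg y S (y m) := fun m hm =>
    deg_sdiff_of_mem hM hMy hm
  have hmx : ∀ a, deg x (S \ M) a ≤ deg x S a := fun a => deg_mono x Finset.sdiff_subset a
  have hmy : ∀ a, deg y (S \ M) a ≤ deg y S a := fun a => deg_mono y Finset.sdiff_subset a
  refine ⟨fun e => if e ∈ M then deg x S (x e) - 1 else r e,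
    fun e => if e ∈ M then 0 else if ∃ m ∈ M, y m = y e then s e + 1 else s e,
    ?_, ?_, ?_, ?_, ?_⟩
  · intro e he
    by_cases h : e ∈ M
    · simp only [h, if_true]
      have := deg_pos (f := x) he
      omega
    · simp only [h, if_false]
      exact lt_of_lt_of_le (h1 e (Finset.mem_sdiff.2 ⟨he, h⟩)) (hmx _)
  · intro e he
    by_cases h : e ∈ M
    · simp only [h, if_true]
      exact deg_pos (f := y) he
    · have h6 := h2 e (Finset.mem_sdiff.2 ⟨he, h⟩)
      by_cases h' : ∃ m ∈ M, y m = y e
      · simp only [h, h', if_true, if_false]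
        obtain ⟨m, hm, hme⟩ := h'
        have h7 := hdy m hm
        rw [hme] at h7
        omega
      · simp only [h, h', if_false]
        exact lt_of_lt_of_le h6 (hmy _)
  · intro e he f hf hxx hrr
    by_cases h : e ∈ M <;> by_cases h' : f ∈ M
    · exact hMx e h f h' hxx
    · simp only [h, h', if_true, if_false] at hrr
      have h6 := h1 f (Finset.mem_sdiff.2 ⟨hf, h'⟩)
      have h7 := hdx e h
      rw [hxx] at h7 hrr
      omega
    · simp only [h, h', if_true, if_false] at hrr
      have h6 := h1 e (Finset.mem_sdiff.2 ⟨he, h⟩)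
      have h7 := hdx f h'
      rw [← hxx] at h7 hrr
      omega
    · simp only [h, h', if_false] at hrr
      exact h3 e (Finset.mem_sdiff.2 ⟨he, h⟩) f (Finset.mem_sdiff.2 ⟨hf, h'⟩) hxx hrr
  · intro e he f hf hyy hss
    by_cases h : e ∈ M <;> by_cases h' : f ∈ M
    · exact hMy e h f h' hyy
    · have hex : ∃ m ∈ M, y m = y f := ⟨e, h, hyy⟩
      simp only [h, h', hex, if_true, if_false] at hss
      omega
    · have hex : ∃ m ∈ M, y m = y e := ⟨f, h', hyy.symm⟩
      simp only [h, h', hex, if_true, if_false] at hss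
      omega
    · have h8 : s e = s f := by
        by_cases hex : ∃ m ∈ M, y m = y e
        · have hex' : ∃ m ∈ M, y m = y f := by rw [← hyy]; exact hex
          simp only [h, h', hex, hex', if_true, if_false] at hss
          omega
        · have hex' : ¬ ∃ m ∈ M, y m = y f := by rw [← hyy]; exact hex
          simp only [h, h', hex, hex', if_false] at hss
          exact hss
      exact h4 e (Finset.mem_sdiff.2 ⟨he, h⟩) f (Finset.mem_sdiff.2 ⟨hf, h'⟩) hyy h8
  · intro e he
    by_cases h : e ∈ M
    · simp only [h, if_true]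
      have := deg_pos (f := x) he
      have := le_max_left (deg x S (x e)) (deg y S (y e))
      omega
    · have h6 := h5 e (Finset.mem_sdiff.2 ⟨he, h⟩)
      have hx := hmx (x e)
      have hy := hmy (y e)
      by_cases h' : ∃ m ∈ M, y m = y e
      · simp only [h, h', if_true, if_false]
        obtain ⟨m, hm, hme⟩ := h'
        have h7 := hdy m hm
        rw [hme] at h7
        by_cases hd : deg y S (y e) ≤ deg x S (x e)
        · obtain ⟨m', hm', hme'⟩ := hcov m hm e he hme.symm hd
          have h8 := hdx m' hm'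
          rw [hme'] at h8
          rw [max_def] at h6 ⊢
          split_ifs at h6 ⊢ <;> omega
        · rw [max_def] at h6 ⊢
          split_ifs at h6 ⊢ <;> omega
      · simp only [h, h', if_false]
        rw [max_def] at h6 ⊢
        split_ifs at h6 ⊢ <;> omega

end rank

end Pool.Agent.Lib.MP_ec05cf_co
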