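import Pool.Agent.Lib.MP_ec05cf_co.Kernel93
import Pool.Agent.Lib.MP_ec05cf_co.Rank93

/-!
# List edge colouring of graphs: lists of size `d(u) + d(v)/2` (Borodin, Kostochka, Woodall)
-/

namespace Pool.Agent.Lib.MP_ec05cf_co

section general

variable {α β γ C : Type*}

/-- the number of preferred edges is at most the sum of the two ranks -/
theorem out_le (x : α → β) (y : α → γ) (r s : α → ℕ) (S : Finset α)
    (hr : ∀ e ∈ S, ∀ f ∈ S, x e = x f → r e = r f → e = f)
    (hs : ∀ e ∈ S, ∀ f ∈ S, y e = y f → s e = s f → e = f) (e : α) :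
    out x y r s S e ≤ r e + s e := by
  classical
  have h1 : (S.filter fun f => Pref x y r s e f) ⊆
      (S.filter fun f => x f = x e ∧ r f < r e) ∪ (S.filter fun f => y f = y e ∧ s f < s e) := by
    intro f hf
    rw [Finset.mem_filter] at hf
    rcases hf.2 with h | h
    · exact Finset.mem_union_left _ (Finset.mem_filter.2 ⟨hf.1, h⟩)
    · exact Finset.mem_union_right _ (Finset.mem_filter.2 ⟨hf.1, h⟩)
  have h2 : (S.filter fun f => x f = x e ∧ r f < r e).card ≤ r e := by
    have := Finset.card_le_card_of_injOn (s := S.filter fun f => x f = x e ∧ r f < r e)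
      (t := Finset.range (r e)) r (by
        intro f hf
        rw [Finset.mem_coe, Finset.mem_filter] at hf
        rw [Finset.mem_coe, Finset.mem_range]
        exact hf.2.2) (by
        intro f hf g hg hfg
        rw [Finset.mem_coe, Finset.mem_filter] at hf hg
        exact hr f hf.1 g hg.1 (hf.2.1.trans hg.2.1.symm) hfg)
    rwa [Finset.card_range] at this
  have h3 : (S.filter fun f => y f = y e ∧ s f < s e).card ≤ s e := by
    have := Finset.card_le_card_of_injOn (s := S.filter fun f => y f = y e ∧ s f < s e)
      (t := Finset.range (s e)) s (by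
        intro f hf
        rw [Finset.mem_coe, Finset.mem_filter] at hf
        rw [Finset.mem_coe, Finset.mem_range]
        exact hf.2.2) (by
        intro f hf g hg hfg
        rw [Finset.mem_coe, Finset.mem_filter] at hf hg
        exact hs f hf.1 g hg.1 (hf.2.1.trans hg.2.1.symm) hfg)
    rwa [Finset.card_range] at this
  unfold out
  have h4 := (Finset.card_le_card h1).trans (Finset.card_union_le _ _)
  omega

/-- greedy colouring in the order of decreasing `ρ` -/
theorem greedy [Nonempty C] (conf : α → α → Prop) (hsym : ∀ e f, conf e f → conf f e) (ρ : α → ℕ)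
    (S : Finset α) (L : α → Finset C) [∀ e f, Decidable (conf e f)] [DecidableEq α]
    (h : ∀ e ∈ S, (S.filter fun f => f ≠ e ∧ conf e f ∧ ρ e ≤ ρ f).card < (L e).card) :
    Good conf S L := by
  classical
  induction hn : S.card generalizing S with
  | zero =>
    rw [Finset.card_eq_zero] at hn
    subst hn
    exact ⟨fun _ => Classical.arbitrary C, by simp, by simp⟩
  | succ n ih =>
    have hne : S.Nonempty := Finset.card_pos.1 (by omega)
    obtain ⟨e, he, hmin⟩ := Finset.exists_min_image S ρ hne
    obtain ⟨c, hc1, hc2⟩ := ih (S.erase e) (fun f hf => lt_of_le_of_lt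
      (Finset.card_le_card (Finset.filter_subset_filter _ (Finset.erase_subset _ _)))
      (h f (Finset.mem_of_mem_erase hf))) (by rw [Finset.card_erase_of_mem he]; omega)
    have h1 : ((S.filter fun f => f ≠ e ∧ conf e f ∧ ρ e ≤ ρ f).image c).card < (L e).card :=
      lt_of_le_of_lt Finset.card_image_le (h e he)
    obtain ⟨k, hk, hk'⟩ := Finset.exists_mem_notMem_of_card_lt_card h1
    have hkc : ∀ f ∈ S, f ≠ e → conf e f → c f ≠ k := by
      intro f hf hfe hcf hck
      apply hk'
      rw [Finset.mem_image]
      exact ⟨f, Finset.mem_filter.2 ⟨hf, hfe, hcf, hmin f hf⟩, hck⟩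
    refine ⟨Function.update c e k, ?_, ?_⟩
    · intro f hf
      by_cases hfe : f = e
      · subst hfe; simpa using hk
      · rw [Function.update_of_ne hfe]
        exact hc1 f (Finset.mem_erase.2 ⟨hfe, hf⟩)
    · intro f hf g hg hfg hcf
      by_cases hfe : f = e
      · subst hfe
        rw [Function.update_self, Function.update_of_ne (Ne.symm hfg)]
        exact (hkc g hg (Ne.symm hfg) hcf).symm
      · by_cases hge : g = e
        · subst hge
          rw [Function.update_self, Function.update_of_ne hfe]
          exact hkc f hf hfe (hsym _ _ hcf)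
        · rw [Function.update_of_ne hfe, Function.update_of_ne hge]
          exact hc2 f (Finset.mem_erase.2 ⟨hfe, hf⟩) g (Finset.mem_erase.2 ⟨hge, hg⟩) hfg hcf

/-- colouring in two steps -/
theorem combine (conf : α → α → Prop) (hsym : ∀ e f, conf e f → conf f e) (S1 S2 : Finset α)
    (L : α → Finset C) [∀ e f, Decidable (conf e f)] [DecidableEq α] [DecidableEq C] (c1 : α → C)
    (h1 : ∀ e ∈ S1, c1 e ∈ L e) (h1' : ∀ e ∈ S1, ∀ f ∈ S1, e ≠ f → conf e f → c1 e ≠ c1 f)
    (h2 : Good conf S2 fun e => L e \ (S1.filter fun f => conf e f).image c1) :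
    Good conf (S1 ∪ S2) L := by
  obtain ⟨c2, h3, h4⟩ := h2
  have key : ∀ e ∈ S2, ∀ f ∈ S1, conf e f → c2 e ≠ c1 f := by
    intro e he f hf hcf hc
    have := h3 e he
    rw [Finset.mem_sdiff] at this
    apply this.2
    rw [Finset.mem_image]
    exact ⟨f, Finset.mem_filter.2 ⟨hf, hcf⟩, hc.symm⟩
  refine ⟨fun e => if e ∈ S1 then c1 e else c2 e, ?_, ?_⟩
  · intro e he
    by_cases h : e ∈ S1
    · simp only [h, if_true]; exact h1 e h
    · simp only [h, if_false]
      have h5 := (Finset.mem_union.1 he).resolve_left h
      exact (Finset.mem_sdiff.1 (h3 e h5)).1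
  · intro e he f hf hef hcf
    by_cases h : e ∈ S1 <;> by_cases h' : f ∈ S1
    · simp only [h, h', if_true]; exact h1' e h f h' hef hcf
    · simp only [h, h', if_true, if_false]
      exact (key f ((Finset.mem_union.1 hf).resolve_left h') e h (hsym _ _ hcf)).symm
    · simp only [h, h', if_true, if_false]
      exact key e ((Finset.mem_union.1 he).resolve_left h) f h' hcf
    · simp only [h, h', if_false]
      exact h4 e ((Finset.mem_union.1 he).resolve_left h) f
        ((Finset.mem_union.1 hf).resolve_left h') hef hcf

theorem card_sdiff_image_ge [DecidableEq C] (L : Finset C) (T : Finset α) (c : α → C) :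
    L.card - T.card ≤ (L \ T.image c).card := by
  have h1 := Finset.le_card_sdiff (T.image c) L
  have h2 : (T.image c).card ≤ T.card := Finset.card_image_le
  omega

end general

section graph

variable {V C : Type*} [DecidableEq V]

/-- two edges of a hypergraph conflict -/
def Meet (e f : Finset V) : Prop := (e ∩ f).Nonempty

instance (e f : Finset V) : Decidable (Meet e f) := by unfold Meet; infer_instance

theorem meet_symm (e f : Finset V) (h : Meet e f) : Meet f e := by
  unfold Meet at *; rwa [Finset.inter_comm]

/-- number of edges at a vertex -/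
def dg (E : Finset (Finset V)) (v : V) : ℕ := (E.filter fun e => v ∈ e).card

theorem dg_pos {E : Finset (Finset V)} {e : Finset V} (he : e ∈ E) {v : V} (hv : v ∈ e) :
    1 ≤ dg E v := Finset.card_pos.2 ⟨e, by simp [he, hv]⟩

/-- edges meeting a 2-edge -/
theorem card_meet_le (E : Finset (Finset V)) (u v : V) :
    (E.filter fun f => Meet {u, v} f).card ≤ dg E u + dg E v := by
  have h1 : (E.filter fun f => Meet {u, v} f) ⊆
      (E.filter fun f => u ∈ f) ∪ (E.filter fun f => v ∈ f) := by
    intro f hf
    rw [Finset.mem_filter] at hf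
    obtain ⟨w, hw⟩ := hf.2
    rw [Finset.mem_inter, Finset.mem_insert, Finset.mem_singleton] at hw
    rw [Finset.mem_union, Finset.mem_filter, Finset.mem_filter]
    rcases hw.1 with h | h
    · left; exact ⟨hf.1, h ▸ hw.2⟩
    · right; exact ⟨hf.1, h ▸ hw.2⟩
  exact (Finset.card_le_card h1).trans (Finset.card_union_le _ _)

/-- the edges with exactly one end in `A` -/
def crs (E : Finset (Finset V)) (A : Finset V) : Finset (Finset V) :=
  E.filter fun e => (e ∩ A).card = 1

/-- the other edges -/
def inn (E : Finset (Finset V)) (A : Finset V) : Finset (Finset V) :=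
  E.filter fun e => ¬ (e ∩ A).card = 1

theorem dg_inn_add_crs (E : Finset (Finset V)) (A : Finset V) (v : V) :
    dg (inn E A) v + dg (crs E A) v = dg E v := by
  unfold dg inn crs
  rw [Finset.filter_filter, Finset.filter_filter, add_comm]
  have h := Finset.card_filter_add_card_filter_not (s := E.filter fun e => v ∈ e)
    (fun e => (e ∩ A).card = 1)
  rw [Finset.filter_filter, Finset.filter_filter] at h
  rw [← h]
  congr 2 <;> (apply Finset.filter_congr; intro e _; tauto)

/-- flipping a vertex -/
theorem flip (E : Finset (Finset V)) (hE : ∀ e ∈ E, e.card = 2) (A : Finset V) (v : V) :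
    ∃ A' : Finset V, A' ⊆ insert v A ∧
      (crs E A').card + dg (crs E A) v = (crs E A).card + dg (inn E A) v := by
  set A' : Finset V := if v ∈ A then A.erase v else insert v A with hA'
  refine ⟨A', ?_, ?_⟩
  · rw [hA']
    split_ifs
    · exact (Finset.erase_subset _ _).trans (Finset.subset_insert _ _)
    · exact Finset.Subset.refl _
  have h1 : ∀ e, v ∉ e → e ∩ A' = e ∩ A := by
    intro e hv
    ext w
    simp only [Finset.mem_inter]
    by_cases hw : w = v
    · subst hw; simp [hv]
    · rw [hA']
      split_ifs <;> simp [hw]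
  have h2 : ∀ e ∈ E, v ∈ e → ((e ∩ A').card = 1 ↔ ¬ (e ∩ A).card = 1) := by
    intro e he hv
    have hc := hE e he
    by_cases hvA : v ∈ A
    · have h3 : e ∩ A' = (e ∩ A).erase v := by
        ext w
        simp only [hA', if_pos hvA, Finset.mem_inter, Finset.mem_erase]
        tauto
      have h4 : v ∈ e ∩ A := by simp [hv, hvA]
      have h5 : (e ∩ A).card ≤ 2 := hc ▸ Finset.card_le_card Finset.inter_subset_left
      have h6 : 1 ≤ (e ∩ A).card := Finset.card_pos.2 ⟨v, h4⟩
      rw [h3, Finset.card_erase_of_mem h4]
      omega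
    · have h3 : e ∩ A' = insert v (e ∩ A) := by
        ext w
        simp only [hA', if_neg hvA, Finset.mem_inter, Finset.mem_insert]
        constructor
        · rintro ⟨h, h' | h'⟩
          · exact Or.inl h'
          · exact Or.inr ⟨h, h'⟩
        · rintro (h | ⟨h, h'⟩)
          · exact ⟨h ▸ hv, Or.inl h⟩
          · exact ⟨h, Or.inr h'⟩
      have h4 : v ∉ e ∩ A := by simp [hvA]
      have h5 : (insert v (e ∩ A)).card ≤ 2 :=
        hc ▸ Finset.card_le_card (Finset.insert_subset hv Finset.inter_subset_left)
      rw [h3]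
      rw [Finset.card_insert_of_notMem h4] at h5 ⊢
      omega
  have h3 : (crs E A').card = ((crs E A).filter fun e => ¬ v ∈ e).card + dg (inn E A) v := by
    rw [← Finset.card_filter_add_card_filter_not (s := crs E A') (fun e => v ∈ e), add_comm]
    congr 1
    · congr 1
      unfold crs
      rw [Finset.filter_filter, Finset.filter_filter]
      apply Finset.filter_congr
      intro e _
      by_cases hv : v ∈ e
      · simp [hv]
      · simp [hv, h1 e hv]
    · unfold dg crs inn
      rw [Finset.filter_filter, Finset.filter_filter]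
      congr 1
      apply Finset.filter_congr
      intro e he
      by_cases hv : v ∈ e
      · simp only [hv, and_true]
        exact h2 e he hv
      · simp [hv]
  have h4 : (crs E A).card = ((crs E A).filter fun e => ¬ v ∈ e).card + dg (crs E A) v := by
    rw [← Finset.card_filter_add_card_filter_not (s := crs E A) (fun e => v ∈ e), add_comm]
    rfl
  omega

/-- a maximum cut -/
theorem exists_cut (E : Finset (Finset V)) (hE : ∀ e ∈ E, e.card = 2) :
    ∃ A : Finset V, ∀ e ∈ E, ∀ v ∈ e, dg (inn E A) v ≤ dg (crs E A) v := by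
  set W : Finset V := E.biUnion id with hW
  obtain ⟨A, hA, hmax⟩ := Finset.exists_max_image W.powerset (fun A => (crs E A).card)
    ⟨∅, by simp⟩
  refine ⟨A, ?_⟩
  intro e he v hv
  obtain ⟨A', hA', hcard⟩ := flip E hE A v
  have h1 : A' ∈ W.powerset := by
    rw [Finset.mem_powerset] at hA ⊢
    refine hA'.trans (Finset.insert_subset ?_ hA)
    rw [hW, Finset.mem_biUnion]
    exact ⟨e, he, hv⟩
  have h2 : (crs E A').card ≤ (crs E A).card := hmax A' h1
  omega

end graph

end Pool.Agent.Lib.MP_ec05cf_co
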