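import Pool.Agent.Lib.MP_ec05cf_co.Graph93

/-!
# List edge colouring of linear hypergraphs
-/

namespace Pool.Agent.Lib.MP_ec05cf_co

section graph

variable {V C : Type*} [DecidableEq V]

/-- a 2-edge with exactly one end in `A` -/
theorem crs_ends {E : Finset (Finset V)} {A e : Finset V} (h2 : e.card = 2) (he : e ∈ crs E A) :
    ∃ u v, u ∈ e ∧ v ∈ e ∧ u ≠ v ∧ e ∩ A = {u} ∧ e \ A = {v} ∧ u ∈ A ∧ v ∉ A ∧ e = {u, v} := by
  have h1 : (e ∩ A).card = 1 := (Finset.mem_filter.1 he).2
  have h3 : (e \ A).card = 1 := by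
    have := Finset.card_inter_add_card_sdiff e A
    omega
  obtain ⟨u, hu⟩ := Finset.card_eq_one.1 h1
  obtain ⟨v, hv⟩ := Finset.card_eq_one.1 h3
  have hu' : u ∈ e ∩ A := by rw [hu]; simp
  have hv' : v ∈ e \ A := by rw [hv]; simp
  rw [Finset.mem_inter] at hu'
  rw [Finset.mem_sdiff] at hv'
  refine ⟨u, v, hu'.1, hv'.1, ?_, hu, hv, hu'.2, hv'.2, ?_⟩
  · rintro rfl; exact hv'.2 hu'.2
  · calc e = (e \ A) ∪ (e ∩ A) := (Finset.sdiff_union_inter e A).symm
      _ = {v} ∪ {u} := by rw [hu, hv]
      _ = {u, v} := by rw [Finset.union_comm]; rfl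

theorem mem_inter_eq_singleton {e A : Finset V} {w : V} (h : (e ∩ A).card = 1) (hw : w ∈ e)
    (hwA : w ∈ A) : e ∩ A = {w} := by
  obtain ⟨u, hu⟩ := Finset.card_eq_one.1 h
  have : w ∈ e ∩ A := Finset.mem_inter.2 ⟨hw, hwA⟩
  rw [hu, Finset.mem_singleton] at this
  rw [hu, this]

theorem mem_sdiff_eq_singleton {e A : Finset V} {w : V} (h : (e \ A).card = 1) (hw : w ∈ e)
    (hwA : w ∉ A) : e \ A = {w} := by
  obtain ⟨u, hu⟩ := Finset.card_eq_one.1 h
  have : w ∈ e \ A := Finset.mem_sdiff.2 ⟨hw, hwA⟩
  rw [hu, Finset.mem_singleton] at this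
  rw [hu, this]

theorem deg_le_of {α β : Type*} (f : α → β) (S T : Finset α) (b : β)
    (h : ∀ e ∈ S, f e = b → e ∈ T) : deg f S b ≤ T.card := by
  classical
  apply Finset.card_le_card
  intro e he
  rw [Finset.mem_filter] at he
  exact h e he.1 he.2

/-- Borodin, Kostochka, Woodall: lists of size `d(u) + d(v)/2` suffice. -/
theorem bkw [Nonempty C] (E : Finset (Finset V)) (hE : ∀ e ∈ E, e.card = 2)
    (L : Finset V → Finset C)
    (hL : ∀ e ∈ E, ∀ u ∈ e, ∀ v ∈ e, u ≠ v → dg E u + dg E v / 2 ≤ (L e).card) :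
    Good Meet E L := by
  classical
  obtain ⟨A, hA⟩ := exists_cut E hE
  have hsum := dg_inn_add_crs E A
  have hE1 : inn E A ⊆ E := Finset.filter_subset _ _
  have hE2 : crs E A ⊆ E := Finset.filter_subset _ _
  -- the inner edges
  obtain ⟨c1, h1, h1'⟩ : Good Meet (inn E A) L := by
    apply greedy Meet meet_symm (fun _ => 0)
    intro e he
    obtain ⟨u, v, huv, rfl⟩ := Finset.card_eq_two.1 (hE e (hE1 he))
    have h3 : ((inn E A).filter fun f => f ≠ {u, v} ∧ Meet {u, v} f ∧ (0:ℕ) ≤ 0) ⊆
        ((inn E A).filter fun f => Meet {u, v} f).erase {u, v} := by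
      intro f hf
      rw [Finset.mem_filter] at hf
      rw [Finset.mem_erase, Finset.mem_filter]
      exact ⟨hf.2.1, hf.1, hf.2.2.1⟩
    have h4 : ({u, v} : Finset V) ∈ (inn E A).filter fun f => Meet {u, v} f := by
      rw [Finset.mem_filter]
      exact ⟨he, u, by simp⟩
    have h5 := (Finset.card_le_card h3)
    rw [Finset.card_erase_of_mem h4] at h5
    have h6 := card_meet_le (inn E A) u v
    have h7 := hL _ (hE1 he) u (by simp) v (by simp) huv
    have h8 := hA _ (hE1 he) u (by simp)
    have h9 := hA _ (hE1 he) v (by simp)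
    have h10 := hsum u
    have h11 := hsum v
    have h12 : 1 ≤ dg (inn E A) u := dg_pos he (by simp)
    have h13 : 1 ≤ dg (inn E A) v := dg_pos he (by simp)
    omega
  have hU : inn E A ∪ crs E A = E := by
    ext e
    simp only [inn, crs, Finset.mem_union, Finset.mem_filter]
    tauto
  rw [← hU]
  apply combine Meet meet_symm (inn E A) (crs E A) L c1 h1 h1'
  -- the crossing edges
  obtain ⟨r, s, -, -, hr, hs, hrs⟩ := exists_ranks (fun e : Finset V => e ∩ A) (fun e => e \ A)
    (crs E A)
  have hg : Good (Conf2 (fun e : Finset V => e ∩ A) (fun e => e \ A)) (crs E A)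
      (fun e => L e \ ((inn E A).filter fun f => Meet e f).image c1) := by
    apply galvin _ _ r s _ _ hr hs
    intro e he
    have h3 := out_le (fun e : Finset V => e ∩ A) (fun e => e \ A) r s (crs E A) hr hs e
    have h4 := hrs e he
    obtain ⟨u, v, hu, hv, huv, hua, hva, huA, hvA, hee⟩ := crs_ends (hE e (hE2 he)) he
    have h5 : deg (fun e : Finset V => e ∩ A) (crs E A) (e ∩ A) ≤ dg (crs E A) u := by
      apply deg_le_of
      intro f hf hfe
      rw [Finset.mem_filter]
      refine ⟨hf, ?_⟩
      change f ∩ A = e ∩ A at hfe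
      have : u ∈ f ∩ A := by rw [hfe, hua]; simp
      exact (Finset.mem_inter.1 this).1
    have h6 : deg (fun e : Finset V => e \ A) (crs E A) (e \ A) ≤ dg (crs E A) v := by
      apply deg_le_of
      intro f hf hfe
      rw [Finset.mem_filter]
      refine ⟨hf, ?_⟩
      change f \ A = e \ A at hfe
      have : v ∈ f \ A := by rw [hfe, hva]; simp
      exact (Finset.mem_sdiff.1 this).1
    have h7 := card_sdiff_image_ge (L e) ((inn E A).filter fun f => Meet e f) c1
    have h8 : ((inn E A).filter fun f => Meet e f).card ≤ dg (inn E A) u + dg (inn E A) v := by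
      rw [hee]; exact card_meet_le _ _ _
    have h9 := hL e (hE2 he) u hu v hv huv
    have h10 := hL e (hE2 he) v hv u hu huv.symm
    have h11 := hA e (hE2 he) u hu
    have h12 := hA e (hE2 he) v hv
    have h13 := hsum u
    have h14 := hsum v
    rw [max_def] at h4
    split_ifs at h4 <;> omega
  obtain ⟨c, hc1, hc2⟩ := hg
  refine ⟨c, hc1, ?_⟩
  intro e he f hf hef hmeet
  apply hc2 e he f hf hef
  obtain ⟨w, hw⟩ := hmeet
  rw [Finset.mem_inter] at hw
  have he1 : (e ∩ A).card = 1 := (Finset.mem_filter.1 he).2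
  have hf1 : (f ∩ A).card = 1 := (Finset.mem_filter.1 hf).2
  have he2 := hE e (hE2 he)
  have hf2 := hE f (hE2 hf)
  have he3 := Finset.card_inter_add_card_sdiff e A
  have hf3 := Finset.card_inter_add_card_sdiff f A
  by_cases hwA : w ∈ A
  · left
    change e ∩ A = f ∩ A
    rw [mem_inter_eq_singleton he1 hw.1 hwA, mem_inter_eq_singleton hf1 hw.2 hwA]
  · right
    change e \ A = f \ A
    rw [mem_sdiff_eq_singleton (by omega) hw.1 hwA, mem_sdiff_eq_singleton (by omega) hw.2 hwA]

end graph

section hyper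

variable {V C : Type*} [DecidableEq V]

/-- linear hypergraph with edges of size at least two -/
def Linear (E : Finset (Finset V)) : Prop :=
  (∀ e ∈ E, 2 ≤ e.card) ∧ ∀ e ∈ E, ∀ f ∈ E, e ≠ f → (e ∩ f).card ≤ 1

/-- number of vertices different from `v` in a common edge with `v` -/
def nb (E : Finset (Finset V)) (v : V) : ℕ :=
  ((E.filter fun e => v ∈ e).biUnion fun e => e.erase v).card

theorem nb_eq {E : Finset (Finset V)} (hE : Linear E) (v : V) :
    nb E v = ∑ e ∈ E.filter (fun e => v ∈ e), (e.card - 1) := by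
  unfold nb
  rw [Finset.card_biUnion]
  · apply Finset.sum_congr rfl
    intro e he
    rw [Finset.card_erase_of_mem (Finset.mem_filter.1 he).2]
  · intro e he f hf hef
    rw [Finset.mem_coe, Finset.mem_filter] at he hf
    rw [Function.onFun, Finset.disjoint_left]
    intro w hw hw'
    rw [Finset.mem_erase] at hw hw'
    have h1 := hE.2 e he.1 f hf.1 hef
    have h2 : ({v, w} : Finset V) ⊆ e ∩ f := by
      intro z hz
      rw [Finset.mem_insert, Finset.mem_singleton] at hz
      rw [Finset.mem_inter]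
      rcases hz with rfl | rfl
      · exact ⟨he.2, hf.2⟩
      · exact ⟨hw.2, hw'.2⟩
    have h3 := Finset.card_le_card h2
    rw [Finset.card_pair hw.1.symm] at h3
    omega

/-- the edges of size two and the larger edges at a vertex -/
theorem two_add_big {E : Finset (Finset V)} (hE : Linear E) (v : V) :
    dg (E.filter fun e => e.card = 2) v + 2 * dg (E.filter fun e => 3 ≤ e.card) v ≤ nb E v := by
  rw [nb_eq hE]
  unfold dg
  rw [Finset.filter_filter, Finset.filter_filter, Finset.card_filter, Finset.card_filter,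
    Finset.mul_sum, ← Finset.sum_add_distrib, Finset.sum_filter]
  apply Finset.sum_le_sum
  intro e he
  have h2 := hE.1 e he
  by_cases hv : v ∈ e
  · by_cases h3 : e.card = 2
    · simp [hv, h3]
    · have h4 : 3 ≤ e.card := by omega
      simp only [hv, h3, h4, and_true, if_true, if_false]
      omega
  · simp [hv]

/-- the other edges at `u` of size at least that of `e` -/
theorem big_at {E : Finset (Finset V)} (hE : Linear E) {e : Finset V} (he : e ∈ E) {u : V}
    (hu : u ∈ e) :
    ((E.filter fun f => f ≠ e ∧ u ∈ f ∧ e.card ≤ f.card).card + 1) * (e.card - 1) ≤ nb E u := by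
  have h1 : (E.filter fun f => f ≠ e ∧ u ∈ f ∧ e.card ≤ f.card).card + 1 =
      (insert e (E.filter fun f => f ≠ e ∧ u ∈ f ∧ e.card ≤ f.card)).card := by
    rw [Finset.card_insert_of_notMem (by simp)]
  rw [h1, nb_eq hE, ← smul_eq_mul, ← Finset.sum_const]
  calc ∑ _f ∈ insert e (E.filter fun f => f ≠ e ∧ u ∈ f ∧ e.card ≤ f.card), (e.card - 1)
      ≤ ∑ f ∈ insert e (E.filter fun f => f ≠ e ∧ u ∈ f ∧ e.card ≤ f.card), (f.card - 1) := by
        apply Finset.sum_le_sum
        intro f hf
        rw [Finset.mem_insert, Finset.mem_filter] at hf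
        rcases hf with rfl | hf
        · exact le_refl _
        · exact Nat.sub_le_sub_right hf.2.2.2 1
    _ ≤ _ := by
        apply Finset.sum_le_sum_of_subset
        intro f hf
        rw [Finset.mem_insert, Finset.mem_filter] at hf
        rw [Finset.mem_filter]
        rcases hf with rfl | hf
        · exact ⟨he, hu⟩
        · exact ⟨hf.1, hf.2.2.1⟩

theorem arith {a b m : ℕ} (hab : b ≤ a) (hm : 2 ≤ m) :
    a + m * b < (a + 1) * m + (b + 1) * m / 2 := by
  have h1 : b + 1 ≤ (b + 1) * m / 2 := by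
    rw [Nat.le_div_iff_mul_le (by norm_num)]
    exact Nat.mul_le_mul_left _ hm
  have h2 : a + m * b < (a + 1) * m + (b + 1) := by
    obtain ⟨k, rfl⟩ := Nat.exists_eq_add_of_le hab
    nlinarith
  omega

/-- **Main theorem**, finite lists. -/
theorem main_finset [Nonempty C] (E : Finset (Finset V)) (hE : Linear E) (L : Finset V → Finset C)
    (hL : ∀ e ∈ E, ∀ u ∈ e, ∀ v ∈ e, u ≠ v → nb E u + nb E v / 2 ≤ (L e).card) :
    Good Meet E L := by
  classical
  set B := E.filter fun e => 3 ≤ e.card with hB
  set T := E.filter fun e => e.card = 2 with hT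
  have hBE : B ⊆ E := Finset.filter_subset _ _
  have hTE : T ⊆ E := Finset.filter_subset _ _
  have hU : B ∪ T = E := by
    ext e
    simp only [hB, hT, Finset.mem_union, Finset.mem_filter]
    constructor
    · rintro (h | h)
      · exact h.1
      · exact h.1
    · intro h
      have := hE.1 e h
      by_cases h3 : e.card = 2
      · exact Or.inr ⟨h, h3⟩
      · exact Or.inl ⟨h, by omega⟩
  -- large edges, greedily
  obtain ⟨c1, h1, h1'⟩ : Good Meet B L := by
    apply greedy Meet meet_symm Finset.card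
    intro e he
    have he3 : 3 ≤ e.card := (Finset.mem_filter.1 he).2
    have heE := hBE he
    let F : V → Finset (Finset V) := fun u => E.filter fun f => f ≠ e ∧ u ∈ f ∧ e.card ≤ f.card
    have hF : ∀ u ∈ e, ((F u).card + 1) * (e.card - 1) ≤ nb E u := fun u hu => big_at hE heE hu
    have hsub : (B.filter fun f => f ≠ e ∧ Meet e f ∧ e.card ≤ f.card) ⊆ e.biUnion F := by
      intro f hf
      rw [Finset.mem_filter] at hf
      obtain ⟨w, hw⟩ := hf.2.2.1
      rw [Finset.mem_inter] at hw
      rw [Finset.mem_biUnion]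
      exact ⟨w, hw.1, Finset.mem_filter.2 ⟨hBE hf.1, hf.2.1, hw.2, hf.2.2.2⟩⟩
    have hle : (B.filter fun f => f ≠ e ∧ Meet e f ∧ e.card ≤ f.card).card ≤
        ∑ u ∈ e, (F u).card := (Finset.card_le_card hsub).trans Finset.card_biUnion_le
    obtain ⟨u, hu, humax⟩ := Finset.exists_max_image e (fun u => (F u).card)
      (Finset.card_pos.1 (by omega))
    have hne : (e.erase u).Nonempty := Finset.card_pos.1 (by
      rw [Finset.card_erase_of_mem hu]; omega)
    obtain ⟨v, hv, hvmax⟩ := Finset.exists_max_image (e.erase u) (fun u => (F u).card) hne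
    rw [Finset.mem_erase] at hv
    have hs : ∑ w ∈ e, (F w).card ≤ (F u).card + (e.card - 1) * (F v).card := by
      rw [← Finset.add_sum_erase e _ hu]
      have : ∑ w ∈ e.erase u, (F w).card ≤ (e.erase u).card • (F v).card :=
        Finset.sum_le_card_nsmul _ _ _ hvmax
      rw [Finset.card_erase_of_mem hu, smul_eq_mul] at this
      omega
    have h3 := hL e heE u hu v hv.2 hv.1.symm
    have h4 := hF u hu
    have h5 := hF v hv.2
    have h6 := arith (humax v hv.2) (m := e.card - 1) (by omega)
    have h7 : ((F v).card + 1) * (e.card - 1) / 2 ≤ nb E v / 2 := Nat.div_le_div_right h5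
    omega
  rw [← hU]
  apply combine Meet meet_symm B T L c1 h1 h1'
  apply bkw T (fun e he => (Finset.mem_filter.1 he).2)
  intro e he u hu v hv huv
  have he2 : e.card = 2 := (Finset.mem_filter.1 he).2
  have hee : e = {u, v} := by
    symm
    apply Finset.eq_of_subset_of_card_le
    · intro w hw
      rw [Finset.mem_insert, Finset.mem_singleton] at hw
      rcases hw with rfl | rfl
      · exact hu
      · exact hv
    · rw [he2, Finset.card_pair huv]
  have h3 := card_sdiff_image_ge (L e) (B.filter fun f => Meet e f) c1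
  have h4 : (B.filter fun f => Meet e f).card ≤ dg B u + dg B v := by
    rw [hee]; exact card_meet_le _ _ _
  have h5 := hL e (hTE he) u hu v hv huv
  have h6 := two_add_big hE u
  have h7 := two_add_big hE v
  rw [← hB, ← hT] at h6 h7
  omega

end hyper

end Pool.Agent.Lib.MP_ec05cf_co
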