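import Mathlib

/-!
# List colouring of the edges of a bipartite multigraph from preferences (Galvin)

Edges are the elements of a finite set `S : Finset α`, with ends `x e`, `y e`; two edges conflict
if they have the same `x` or the same `y`. `r` and `s` are injective ranks at the two ends.
-/

namespace Pool.Agent.Lib.MP_ec05cf_co

open Classical in
/-- There is a proper colouring of `S` from the lists `L` for the conflict relation `conf`. -/
def Good {α C : Type*} (conf : α → α → Prop) (S : Finset α) (L : α → Finset C) : Prop :=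
  ∃ c : α → C, (∀ e ∈ S, c e ∈ L e) ∧ ∀ e ∈ S, ∀ f ∈ S, e ≠ f → conf e f → c e ≠ c f

section kernel

variable {α β γ C : Type*} (x : α → β) (y : α → γ) (r s : α → ℕ)

/-- `f` is preferred to `e` at a common end. -/
def Pref (e f : α) : Prop := (x f = x e ∧ r f < r e) ∨ (y f = y e ∧ s f < s e)

/-- conflict -/
def Conf2 (e f : α) : Prop := x e = x f ∨ y e = y f

/-- stable matchings -/
theorem exists_kernel (T : Finset α)
    (hr : ∀ e ∈ T, ∀ f ∈ T, x e = x f → r e = r f → e = f)
    (hs : ∀ e ∈ T, ∀ f ∈ T, y e = y f → s e = s f → e = f) :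
    ∃ M ⊆ T, (∀ e ∈ M, ∀ f ∈ M, e ≠ f → ¬ Conf2 x y e f) ∧
      ∀ e ∈ T, e ∉ M → ∃ f ∈ M, Pref x y r s e f := by
  classical
  induction hn : T.card using Nat.strong_induction_on generalizing T with
  | _ n ih =>
  by_cases hcase : ∃ e ∈ T, ∃ e' ∈ T, (∀ f ∈ T, x f = x e → r e ≤ r f) ∧ y e = y e' ∧
      s e < s e'
  · obtain ⟨e, he, e', he', htop, hy, hse⟩ := hcase
    have hne : e ≠ e' := by rintro rfl; exact lt_irrefl _ hse
    obtain ⟨M, hM, hind, habs⟩ := ih (T.erase e').card (by
      rw [← hn]; exact Finset.card_erase_lt_of_mem he') (T.erase e')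
      (fun a ha b hb => hr a (Finset.mem_of_mem_erase ha) b (Finset.mem_of_mem_erase hb))
      (fun a ha b hb => hs a (Finset.mem_of_mem_erase ha) b (Finset.mem_of_mem_erase hb)) rfl
    refine ⟨M, hM.trans (Finset.erase_subset _ _), hind, ?_⟩
    intro g hg hgM
    by_cases hge : g = e'
    · subst hge
      by_cases heM : e ∈ M
      · exact ⟨e, heM, Or.inr ⟨hy, hse⟩⟩
      · obtain ⟨f, hf, h1 | h1⟩ := habs e (Finset.mem_erase.2 ⟨hne, he⟩) heM
        · exact absurd h1.2 (not_lt.2 (htop f (Finset.mem_of_mem_erase (hM hf)) h1.1))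
        · exact ⟨f, hf, Or.inr ⟨h1.1.trans hy, h1.2.trans hse⟩⟩
    · exact habs g (Finset.mem_erase.2 ⟨hge, hg⟩) hgM
  · push Not at hcase
    refine ⟨T.filter fun e => ∀ f ∈ T, x f = x e → r e ≤ r f, Finset.filter_subset _ _, ?_, ?_⟩
    · intro e he f hf hne hc
      rw [Finset.mem_filter] at he hf
      rcases hc with hc | hc
      · exact hne (hr e he.1 f hf.1 hc (le_antisymm (he.2 f hf.1 hc.symm) (hf.2 e he.1 hc)))
      · have h1 := hcase e he.1 f hf.1 he.2 hc
        have h2 := hcase f hf.1 e he.1 hf.2 hc.symm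
        exact hne (hs e he.1 f hf.1 hc (le_antisymm h2 h1))
    · intro e he heM
      have h0 : (T.filter fun f => x f = x e).Nonempty := ⟨e, by simp [he]⟩
      obtain ⟨f, hf, hmin⟩ := Finset.exists_min_image _ r h0
      rw [Finset.mem_filter] at hf
      have htop : ∀ g ∈ T, x g = x f → r f ≤ r g := by
        intro g hg hgx
        exact hmin g (by simp [hg, hgx, hf.2])
      refine ⟨f, by simp only [Finset.mem_filter]; exact ⟨hf.1, htop⟩, Or.inl ⟨hf.2, ?_⟩⟩
      rcases lt_or_ge (r f) (r e) with h | h
      · exact h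
      · exfalso
        apply heM
        rw [Finset.mem_filter]
        refine ⟨he, fun g hg hgx => h.trans (htop g hg (hgx.trans hf.2.symm))⟩

open Classical in
/-- number of preferred edges -/
noncomputable def out (S : Finset α) (e : α) : ℕ := (S.filter fun f => Pref x y r s e f).card

/-- Galvin's theorem in the form with preferences. -/
theorem galvin (S : Finset α) (L : α → Finset C) [Nonempty C]
    (hr : ∀ e ∈ S, ∀ f ∈ S, x e = x f → r e = r f → e = f)
    (hs : ∀ e ∈ S, ∀ f ∈ S, y e = y f → s e = s f → e = f)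
    (hL : ∀ e ∈ S, out x y r s S e < (L e).card) : Good (Conf2 x y) S L := by
  classical
  induction hn : S.card using Nat.strong_induction_on generalizing S L with
  | _ n ih =>
  rcases S.eq_empty_or_nonempty with rfl | ⟨e0, he0⟩
  · exact ⟨fun _ => Classical.arbitrary C, by simp, by simp⟩
  obtain ⟨k, hk⟩ : (L e0).Nonempty := Finset.card_pos.1 (lt_of_le_of_lt (Nat.zero_le _) (hL e0 he0))
  obtain ⟨M, hM, hind, habs⟩ := exists_kernel x y r s (S.filter fun e => k ∈ L e)
    (fun a ha b hb => hr a (Finset.mem_filter.1 ha).1 b (Finset.mem_filter.1 hb).1)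
    (fun a ha b hb => hs a (Finset.mem_filter.1 ha).1 b (Finset.mem_filter.1 hb).1)
  have hMS : M ⊆ S := hM.trans (Finset.filter_subset _ _)
  have hMne : M.Nonempty := by
    by_contra h
    rw [Finset.not_nonempty_iff_eq_empty] at h
    subst h
    obtain ⟨f, hf, -⟩ := habs e0 (by simp [he0, hk]) (by simp)
    simp at hf
  have hcard : (S \ M).card < n := by
    rw [← hn]
    exact Finset.card_lt_card (Finset.sdiff_ssubset hMS hMne)
  have hL' : ∀ e ∈ S \ M, out x y r s (S \ M) e < ((L e).erase k).card := by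
    intro e he
    rw [Finset.mem_sdiff] at he
    have hle : out x y r s (S \ M) e ≤ out x y r s S e :=
      Finset.card_le_card (Finset.filter_subset_filter _ Finset.sdiff_subset)
    by_cases hke : k ∈ L e
    · obtain ⟨f, hf, hpf⟩ := habs e (by simp [he.1, hke]) he.2
      have hlt : out x y r s (S \ M) e < out x y r s S e := by
        apply Finset.card_lt_card
        rw [Finset.ssubset_iff_of_subset (Finset.filter_subset_filter _ Finset.sdiff_subset)]
        refine ⟨f, by simp [hMS hf, hpf], by simp [hf]⟩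
      rw [Finset.card_erase_of_mem hke]
      have := hL e he.1
      omega
    · rw [Finset.erase_eq_of_notMem hke]
      exact lt_of_le_of_lt hle (hL e he.1)
  obtain ⟨c, hc1, hc2⟩ := ih _ hcard (S \ M) (fun e => (L e).erase k)
    (fun a ha b hb => hr a (Finset.mem_sdiff.1 ha).1 b (Finset.mem_sdiff.1 hb).1)
    (fun a ha b hb => hs a (Finset.mem_sdiff.1 ha).1 b (Finset.mem_sdiff.1 hb).1) hL' rfl
  refine ⟨fun e => if e ∈ M then k else c e, ?_, ?_⟩
  · intro e he
    by_cases h : e ∈ M
    · simp only [h, if_true]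
      exact (Finset.mem_filter.1 (hM h)).2
    · simp only [h, if_false]
      exact Finset.mem_of_mem_erase (hc1 e (by simp [he, h]))
  · intro e he f hf hne hcf
    by_cases h : e ∈ M <;> by_cases h' : f ∈ M
    · exact absurd hcf (hind e h f h' hne)
    · simp only [h, h', if_true, if_false]
      exact (Finset.ne_of_mem_erase (hc1 f (by simp [hf, h']))).symm
    · simp only [h, h', if_true, if_false]
      exact Finset.ne_of_mem_erase (hc1 e (by simp [he, h]))
    · simp only [h, h', if_false]
      exact hc2 e (by simp [he, h]) f (by simp [hf, h']) hne hcf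

end kernel

end Pool.Agent.Lib.MP_ec05cf_co
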