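import Pool.Agent.Lib.MP_ec05cf_co.Hyper93

/-!
# Linear hypergraphs whose edges have size two or at least `k`
-/

namespace Pool.Agent.Lib.MP_ec05cf_co

variable {V C : Type*} [DecidableEq V]

/-- Galvin's theorem for the edges with exactly one end in `A`. -/
theorem bip [Nonempty C] (T : Finset (Finset V)) (hT : ∀ e ∈ T, e.card = 2) (A : Finset V)
    (hA : ∀ e ∈ T, (e ∩ A).card = 1) (L : Finset V → Finset C)
    (hL : ∀ e ∈ T, ∀ u ∈ e, dg T u ≤ (L e).card) : Good Meet T L := by
  classical
  obtain ⟨r, s, -, -, hr, hs, hrs⟩ := exists_ranks (fun e : Finset V => e ∩ A) (fun e => e \ A) T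
  have hg : Good (Conf2 (fun e : Finset V => e ∩ A) (fun e => e \ A)) T L := by
    apply galvin _ _ r s _ _ hr hs
    intro e he
    have h3 := out_le (fun e : Finset V => e ∩ A) (fun e => e \ A) r s T hr hs e
    have h4 := hrs e he
    have hec : e ∈ crs T A := Finset.mem_filter.2 ⟨he, hA e he⟩
    obtain ⟨u, v, hu, hv, huv, hua, hva, huA, hvA, hee⟩ := crs_ends (hT e he) hec
    have h5 : deg (fun e : Finset V => e ∩ A) T (e ∩ A) ≤ dg T u := by
      apply deg_le_of
      intro f hf hfe
      rw [Finset.mem_filter]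
      refine ⟨hf, ?_⟩
      change f ∩ A = e ∩ A at hfe
      have : u ∈ f ∩ A := by rw [hfe, hua]; simp
      exact (Finset.mem_inter.1 this).1
    have h6 : deg (fun e : Finset V => e \ A) T (e \ A) ≤ dg T v := by
      apply deg_le_of
      intro f hf hfe
      rw [Finset.mem_filter]
      refine ⟨hf, ?_⟩
      change f \ A = e \ A at hfe
      have : v ∈ f \ A := by rw [hfe, hva]; simp
      exact (Finset.mem_sdiff.1 this).1
    have h9 := hL e he u hu
    have h10 := hL e he v hv
    rw [max_def] at h4
    split_ifs at h4 <;> omega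
  obtain ⟨c, hc1, hc2⟩ := hg
  refine ⟨c, hc1, ?_⟩
  intro e he f hf hef hmeet
  apply hc2 e he f hf hef
  obtain ⟨w, hw⟩ := hmeet
  rw [Finset.mem_inter] at hw
  have he1 : (e ∩ A).card = 1 := hA e he
  have hf1 : (f ∩ A).card = 1 := hA f hf
  have he2 := hT e he
  have hf2 := hT f hf
  have he3 := Finset.card_inter_add_card_sdiff e A
  have hf3 := Finset.card_inter_add_card_sdiff f A
  by_cases hwA : w ∈ A
  · left
    change e ∩ A = f ∩ A
    rw [mem_inter_eq_singleton he1 hw.1 hwA, mem_inter_eq_singleton hf1 hw.2 hwA]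
  · right
    change e \ A = f \ A
    rw [mem_sdiff_eq_singleton (by omega) hw.1 hwA, mem_sdiff_eq_singleton (by omega) hw.2 hwA]

/-- Colouring in two steps: the edges of size at least three greedily, then the 2-edges. -/
theorem sized [Nonempty C] (E : Finset (Finset V)) (hE : Linear E) (L : Finset V → Finset C)
    (h3 : ∀ e ∈ E, 3 ≤ e.card →
      ∑ u ∈ e, (E.filter fun f => f ≠ e ∧ u ∈ f ∧ e.card ≤ f.card).card < (L e).card)
    (h2 : ∀ L' : Finset V → Finset C, (∀ e ∈ E, e.card = 2 → ∀ u ∈ e, ∀ v ∈ e, u ≠ v →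
        (L e).card ≤ (L' e).card + (dg (E.filter fun e => 3 ≤ e.card) u +
          dg (E.filter fun e => 3 ≤ e.card) v)) →
      Good Meet (E.filter fun e => e.card = 2) L') :
    Good Meet E L := by
  classical
  set B := E.filter fun e => 3 ≤ e.card with hB
  set T := E.filter fun e => e.card = 2 with hT
  have hBE : B ⊆ E := Finset.filter_subset _ _
  have hTE : T ⊆ E := Finset.filter_subset _ _
  have hU : B ∪ T = E := by
    ext e
    simp only [hB, hT, Finset.mem_union, Finset.mem_filter]
    constructor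
    · rintro (h | h)
      · exact h.1
      · exact h.1
    · intro h
      have := hE.1 e h
      by_cases h3 : e.card = 2
      · exact Or.inr ⟨h, h3⟩
      · exact Or.inl ⟨h, by omega⟩
  obtain ⟨c1, h1, h1'⟩ : Good Meet B L := by
    apply greedy Meet meet_symm Finset.card
    intro e he
    have he3 : 3 ≤ e.card := (Finset.mem_filter.1 he).2
    have heE := hBE he
    refine lt_of_le_of_lt ?_ (h3 e heE he3)
    have hsub : (B.filter fun f => f ≠ e ∧ Meet e f ∧ e.card ≤ f.card) ⊆
        e.biUnion fun u => E.filter fun f => f ≠ e ∧ u ∈ f ∧ e.card ≤ f.card := by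
      intro f hf
      rw [Finset.mem_filter] at hf
      obtain ⟨w, hw⟩ := hf.2.2.1
      rw [Finset.mem_inter] at hw
      rw [Finset.mem_biUnion]
      exact ⟨w, hw.1, Finset.mem_filter.2 ⟨hBE hf.1, hf.2.1, hw.2, hf.2.2.2⟩⟩
    exact (Finset.card_le_card hsub).trans Finset.card_biUnion_le
  rw [← hU]
  apply combine Meet meet_symm B T L c1 h1 h1'
  apply h2
  intro e he he2 u hu v hv huv
  have hee : e = {u, v} := by
    symm
    apply Finset.eq_of_subset_of_card_le
    · intro w hw
      rw [Finset.mem_insert, Finset.mem_singleton] at hw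
      rcases hw with rfl | rfl
      · exact hu
      · exact hv
    · rw [he2, Finset.card_pair huv]
  have h4 := card_sdiff_image_ge (L e) (B.filter fun f => Meet e f) c1
  have h5 : (B.filter fun f => Meet e f).card ≤ dg B u + dg B v := by
    rw [hee]; exact card_meet_le _ _ _
  omega

/-- the edges of size two and the larger edges at a vertex, if these have size at least `k` -/
theorem two_add_big_k {E : Finset (Finset V)} (hE : Linear E) {k : ℕ} (hk : 2 ≤ k)
    (hEk : ∀ e ∈ E, e.card = 2 ∨ k ≤ e.card) (v : V) :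
    dg (E.filter fun e => e.card = 2) v + (k - 1) * dg (E.filter fun e => 3 ≤ e.card) v ≤
      nb E v := by
  rw [nb_eq hE]
  unfold dg
  rw [Finset.filter_filter, Finset.filter_filter, Finset.card_filter, Finset.card_filter,
    Finset.mul_sum, ← Finset.sum_add_distrib, Finset.sum_filter]
  apply Finset.sum_le_sum
  intro e he
  have h2 := hE.1 e he
  have h2k := hEk e he
  by_cases hv : v ∈ e
  · by_cases h3 : e.card = 2
    · simp [hv, h3]
    · have h4 : 3 ≤ e.card := by omega
      simp only [hv, h3, h4, and_true, if_true, if_false]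
      omega
  · simp [hv]

/-- The sum over the vertices of a large edge. -/
theorem sum_at {E : Finset (Finset V)} (hE : Linear E) {D : ℕ} (hD : ∀ v, nb E v ≤ D)
    {e : Finset V} (he : e ∈ E) (h3 : 3 ≤ e.card) :
    ∑ u ∈ e, (E.filter fun f => f ≠ e ∧ u ∈ f ∧ e.card ≤ f.card).card + e.card ≤
      e.card * (D / (e.card - 1)) := by
  have h1 : ∑ u ∈ e, ((E.filter fun f => f ≠ e ∧ u ∈ f ∧ e.card ≤ f.card).card + 1) ≤
      e.card • (D / (e.card - 1)) := by
    apply Finset.sum_le_card_nsmul
    intro u hu
    rw [Nat.le_div_iff_mul_le (by omega)]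
    exact (big_at hE he hu).trans (hD u)
  rw [Finset.sum_add_distrib, smul_eq_mul] at h1
  simpa using h1

end Pool.Agent.Lib.MP_ec05cf_co
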