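import Pool.Agent.Lib.MP_ec05cf_co.Sized93

/-!
# The three numerical bounds
-/

namespace Pool.Agent.Lib.MP_ec05cf_co

variable {V C : Type*} [DecidableEq V]

theorem ratio_eq {k D : ℕ} (hk : 3 ≤ k) : k * D / (k - 1) = D + D / (k - 1) := by
  have h1 : k * D = D + (k - 1) * D := by
    obtain ⟨j, rfl⟩ := Nat.exists_eq_add_of_le hk
    have : 3 + j - 1 = j + 2 := by omega
    rw [this]; ring
  rw [h1, Nat.add_mul_div_left _ _ (by omega : 0 < k - 1), Nat.add_comm]

/-- large edges, the bound `k D / (k - 1)` -/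
theorem big_ratio {E : Finset (Finset V)} (hE : Linear E) {k D : ℕ} (hk : 3 ≤ k)
    (hEk : ∀ e ∈ E, e.card = 2 ∨ k ≤ e.card) (hD : ∀ v, nb E v ≤ D) {e : Finset V} (he : e ∈ E)
    (h3 : 3 ≤ e.card) :
    ∑ u ∈ e, (E.filter fun f => f ≠ e ∧ u ∈ f ∧ e.card ≤ f.card).card < k * D / (k - 1) := by
  have h1 := sum_at hE hD he h3
  have h2 : k ≤ e.card := by rcases hEk e he with h | h <;> omega
  have h4 : D / (e.card - 1) ≤ D / (k - 1) := Nat.div_le_div_left (by omega) (by omega)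
  have h5 : (e.card - 1) * (D / (e.card - 1)) ≤ D := Nat.mul_div_le _ _
  have h6 : e.card * (D / (e.card - 1)) =
      (e.card - 1) * (D / (e.card - 1)) + D / (e.card - 1) := by
    obtain ⟨j, hj⟩ := Nat.exists_eq_add_of_le h3
    have : e.card - 1 = j + 2 := by omega
    rw [this, hj]; ring
  rw [ratio_eq hk]
  omega

/-- large edges, the bound `n` -/
theorem big_exact {E : Finset (Finset V)} (hE : Linear E) {k n : ℕ} (hk : 3 ≤ k)
    (hEk : ∀ e ∈ E, e.card = 2 ∨ k ≤ e.card) (hD : ∀ v, nb E v ≤ n - 1) (hn1 : 1 ≤ n)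
    (hn : n + k ≤ k ^ 2 + 1) {e : Finset V} (he : e ∈ E) (h3 : 3 ≤ e.card) :
    ∑ u ∈ e, (E.filter fun f => f ≠ e ∧ u ∈ f ∧ e.card ≤ f.card).card < n := by
  have h1 := sum_at hE hD he h3
  have h2 : k ≤ e.card := by rcases hEk e he with h | h <;> omega
  have h5 : (e.card - 1) * ((n - 1) / (e.card - 1)) ≤ n - 1 := Nat.mul_div_le _ _
  have h6 : e.card * ((n - 1) / (e.card - 1)) =
      (e.card - 1) * ((n - 1) / (e.card - 1)) + (n - 1) / (e.card - 1) := by
    obtain ⟨j, hj⟩ := Nat.exists_eq_add_of_le h3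
    have : e.card - 1 = j + 2 := by omega
    rw [this, hj]; ring
  have h7 : (n - 1) / (e.card - 1) ≤ e.card := by
    apply Nat.div_le_of_le_mul
    obtain ⟨j, hj⟩ := Nat.exists_eq_add_of_le h2
    obtain ⟨i, hi⟩ := Nat.exists_eq_add_of_le hk
    have h8 : e.card - 1 = i + 2 + j := by omega
    rw [h8, hj, hi]
    rw [hi] at hn
    have h9 : n ≤ (3 + i) ^ 2 + 1 - (3 + i) := by omega
    have h10 : (3 + i) ^ 2 + 1 = (i + 2) * (3 + i) + 1 + (3 + i) := by ring
    have h11 : n - 1 ≤ (i + 2) * (3 + i) := by omega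
    refine h11.trans ?_
    exact Nat.mul_le_mul (by omega) (by omega)
  omega

theorem two_ratio {k D a b c d : ℕ} (hk : 3 ≤ k) (h1 : a + (k - 1) * b ≤ D)
    (h2 : c + (k - 1) * d ≤ D) : b + d + a ≤ k * D / (k - 1) := by
  rw [Nat.le_div_iff_mul_le (by omega)]
  obtain ⟨j, rfl⟩ := Nat.exists_eq_add_of_le hk
  have hj : 3 + j - 1 = j + 2 := by omega
  rw [hj] at h1 h2 ⊢
  have h3 : (j + 1) * a ≤ (j + 1) * D := Nat.mul_le_mul_left _ (by
    have : a ≤ a + (j + 2) * b := Nat.le_add_right _ _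
    omega)
  nlinarith

theorem two_exact {k n a b c d t : ℕ} (hk : 3 ≤ k) (hn1 : 1 ≤ n) (h1 : a + (k - 1) * b ≤ n - 1)
    (h2 : c + (k - 1) * d ≤ n - 1) (hc : 1 ≤ c) (ha : a ≤ t)
    (ht : k * t + 3 * n ≤ k * n + 2 * t + 3) : b + d + a ≤ n := by
  obtain ⟨j, rfl⟩ := Nat.exists_eq_add_of_le hk
  have hj : 3 + j - 1 = j + 2 := by omega
  rw [hj] at h1 h2
  obtain ⟨m, rfl⟩ := Nat.exists_eq_add_of_le hn1
  have hm : 1 + m - 1 = m := by omega
  rw [hm] at h1 h2
  have h3 : (j + 1) * a ≤ (j + 1) * t := Nat.mul_le_mul_left _ ha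
  have h4 : (j + 2) * (b + d + a) ≤ (j + 2) * (1 + m) := by nlinarith
  exact Nat.le_of_mul_le_mul_left h4 (by omega)

theorem two_exact' {k n a b c d t : ℕ} (hk : 3 ≤ k) (hn1 : 1 ≤ n)
    (h1 : a + (k - 1) * b ≤ n - 1) (h2 : c + (k - 1) * d ≤ n - 1) (ha : a ≤ t) (hc : c ≤ t)
    (ht : 3 * k * t + 6 * n ≤ 2 * k * n + 7 * t + 4) : b + d + (a + c / 2) ≤ n := by
  obtain ⟨j, rfl⟩ := Nat.exists_eq_add_of_le hk
  have hj : 3 + j - 1 = j + 2 := by omega
  rw [hj] at h1 h2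
  obtain ⟨m, rfl⟩ := Nat.exists_eq_add_of_le hn1
  have hm : 1 + m - 1 = m := by omega
  rw [hm] at h1 h2
  have h3 : (2 * j + 2) * a ≤ (2 * j + 2) * t := Nat.mul_le_mul_left _ ha
  have h5 : j * c ≤ j * t := Nat.mul_le_mul_left _ hc
  have h6 : 2 * (c / 2) ≤ c := Nat.mul_div_le _ _
  have h7 : (j + 2) * (2 * (c / 2)) ≤ (j + 2) * c := Nat.mul_le_mul_left _ h6
  have h4 : (2 * j + 4) * (b + d + (a + c / 2)) ≤ (2 * j + 4) * (1 + m) := by nlinarith
  exact Nat.le_of_mul_le_mul_left h4 (by omega)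

/-- (1), finite lists -/
theorem main_ratio [Nonempty C] (E : Finset (Finset V)) (hE : Linear E) {k D : ℕ} (hk : 3 ≤ k)
    (hEk : ∀ e ∈ E, e.card = 2 ∨ k ≤ e.card) (A : Finset V)
    (hA : ∀ e ∈ E, e.card = 2 → (e ∩ A).card = 1) (hD : ∀ v, nb E v ≤ D)
    (L : Finset V → Finset C) (hL : ∀ e ∈ E, k * D / (k - 1) ≤ (L e).card) : Good Meet E L := by
  apply sized E hE L
  · intro e he h3
    exact lt_of_lt_of_le (big_ratio hE hk hEk hD he h3) (hL e he)
  · intro L' hL'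
    apply bip _ (fun e he => (Finset.mem_filter.1 he).2) A
      (fun e he => hA e (Finset.mem_filter.1 he).1 (Finset.mem_filter.1 he).2)
    intro e he u hu
    have he1 := (Finset.mem_filter.1 he).1
    have he2 := (Finset.mem_filter.1 he).2
    obtain ⟨v, hv, huv⟩ := Finset.exists_mem_ne (by omega : 1 < e.card) u
    have h4 := hL' e he1 he2 u hu v hv huv.symm
    have h5 := hL e he1
    have h6 := (two_add_big_k hE (by omega) hEk u).trans (hD u)
    have h7 := (two_add_big_k hE (by omega) hEk v).trans (hD v)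
    have h8 := two_ratio hk h6 h7
    omega

/-- (2), finite lists -/
theorem main_exact [Nonempty C] (E : Finset (Finset V)) (hE : Linear E) {k n t : ℕ} (hk : 3 ≤ k)
    (hEk : ∀ e ∈ E, e.card = 2 ∨ k ≤ e.card) (A : Finset V)
    (hA : ∀ e ∈ E, e.card = 2 → (e ∩ A).card = 1) (hD : ∀ v, nb E v ≤ n - 1) (hn1 : 1 ≤ n)
    (hn : n + k ≤ k ^ 2 + 1) (ht : ∀ v, dg (E.filter fun e => e.card = 2) v ≤ t)
    (htn : k * t + 3 * n ≤ k * n + 2 * t + 3)
    (L : Finset V → Finset C) (hL : ∀ e ∈ E, n ≤ (L e).card) : Good Meet E L := by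
  apply sized E hE L
  · intro e he h3
    exact lt_of_lt_of_le (big_exact hE hk hEk hD hn1 hn he h3) (hL e he)
  · intro L' hL'
    apply bip _ (fun e he => (Finset.mem_filter.1 he).2) A
      (fun e he => hA e (Finset.mem_filter.1 he).1 (Finset.mem_filter.1 he).2)
    intro e he u hu
    have he1 := (Finset.mem_filter.1 he).1
    have he2 := (Finset.mem_filter.1 he).2
    obtain ⟨v, hv, huv⟩ := Finset.exists_mem_ne (by omega : 1 < e.card) u
    have h4 := hL' e he1 he2 u hu v hv huv.symm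
    have h5 := hL e he1
    have h6 := (two_add_big_k hE (by omega) hEk u).trans (hD u)
    have h7 := (two_add_big_k hE (by omega) hEk v).trans (hD v)
    have h8 := two_exact hk hn1 h6 h7 (dg_pos he hv) (ht u) htn
    omega

/-- (3), finite lists -/
theorem main_general [Nonempty C] (E : Finset (Finset V)) (hE : Linear E) {k n t : ℕ}
    (hk : 3 ≤ k) (hEk : ∀ e ∈ E, e.card = 2 ∨ k ≤ e.card) (hD : ∀ v, nb E v ≤ n - 1)
    (hn1 : 1 ≤ n) (hn : n + k ≤ k ^ 2 + 1) (ht : ∀ v, dg (E.filter fun e => e.card = 2) v ≤ t)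
    (htn : 3 * k * t + 6 * n ≤ 2 * k * n + 7 * t + 4)
    (L : Finset V → Finset C) (hL : ∀ e ∈ E, n ≤ (L e).card) : Good Meet E L := by
  apply sized E hE L
  · intro e he h3
    exact lt_of_lt_of_le (big_exact hE hk hEk hD hn1 hn he h3) (hL e he)
  · intro L' hL'
    apply bkw _ (fun e he => (Finset.mem_filter.1 he).2)
    intro e he u hu v hv huv
    have he1 := (Finset.mem_filter.1 he).1
    have he2 := (Finset.mem_filter.1 he).2
    have h4 := hL' e he1 he2 u hu v hv huv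
    have h5 := hL e he1
    have h6 := (two_add_big_k hE (by omega) hEk u).trans (hD u)
    have h7 := (two_add_big_k hE (by omega) hEk v).trans (hD v)
    have h8 := two_exact' hk hn1 h6 h7 (ht u) (ht v) htn
    omega

end Pool.Agent.Lib.MP_ec05cf_co
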